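import Pool.Agent.H18.SAP.All

/-!
# Singly attained primes in the residue class 1 modulo `M`

The chain of length `max n M` is multiplied by `M` before the sieve is applied.
-/

set_option autoImplicit false

namespace SAPM

open Finset SAP

/-- Chains of length `n` whose members are divisible by `M` and by all primes up to `n + 1`. -/
theorem chainM (hCHAIN : S_CHAIN) (M n : ℕ) (hM : 1 ≤ M) : ∃ C : Fin n → ℕ, StrictMono C ∧
    (∀ i, 1 ≤ C i) ∧ (∀ i, M ∣ C i) ∧ (∀ i, ∀ p : ℕ, p.Prime → p ≤ n + 1 → p ∣ C i) ∧ CP C := by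
  obtain ⟨C, h1, h2, h3, h4⟩ := hCHAIN (max n M)
  let f : Fin n → Fin (max n M) := fun i => ⟨i, lt_of_lt_of_le i.2 (le_max_left _ _)⟩
  have hf : StrictMono f := fun a b h => h
  refine ⟨fun i => M * C (f i), ?_, ?_, ?_, ?_, ?_⟩
  · intro a b h
    exact Nat.mul_lt_mul_of_pos_left (h1 (hf h)) hM
  · intro i
    exact Nat.mul_pos hM (h2 _)
  · intro i
    exact Dvd.intro _ rfl
  · intro i p hp hpn
    exact (h3 (f i) p hp (hpn.trans (Nat.succ_le_succ (le_max_left _ _)))).mul_left M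
  · intro i j hji
    obtain ⟨g, hg, hk⟩ := h4 (f i) (f j) (hf hji)
    refine ⟨g, ?_, ?_⟩
    · show M * C (f i) = M * C (f j) * g
      rw [hg, mul_assoc]
    · intro ℓ hℓ hd
      apply hk ℓ hℓ
      rcases (Nat.Prime.dvd_mul hℓ).1 hd with h | h
      · exact h3 (f i) ℓ hℓ ((Nat.le_of_dvd hM h).trans
          ((le_max_right n M).trans (Nat.le_succ _)))
      · exact h

/-- The criterion holds for primes `p = 1` modulo `M` beyond any bound. -/
theorem finM (hSEL : S_SEL) (hCHAIN : S_CHAIN) (M : ℕ) (hM : 1 ≤ M) (N : ℕ) :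
    ∃ p : ℕ, N ≤ p ∧ p.Prime ∧ 3 ≤ p ∧ M ∣ p - 1 ∧
      ∀ ℓ : ℕ, ℓ.Prime → ℓ ∣ p - 1 → ∃ k : ℕ, 0 < k ∧ k < p ∧ (p - 1) ∣ ℓ * k.totient := by
  classical
  obtain ⟨K, hSEL⟩ := hSEL
  obtain ⟨n, hSEL⟩ := hSEL 2
  obtain ⟨C, C1, C2, CM, C3, C4⟩ := chainM hCHAIN M n hM
  obtain ⟨I, hI, hSel⟩ := hSEL Unit (fun _ => C) (fun _ => C1) (fun _ => C2)
    (fun _ i p hp hpn => C3 i p hp hpn)
  obtain ⟨Cm, hCm⟩ : ∃ Cm : ℕ, Cm = ∑ i, C i := ⟨_, rfl⟩
  have hCle : ∀ i, C i ≤ Cm := fun i => by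
    rw [hCm]
    exact Finset.single_le_sum (f := C) (fun _ _ => Nat.zero_le _) (Finset.mem_univ i)
  obtain ⟨X, t', hX, htX, -, -, -, htp, htP⟩ := hSel 1 0 (N + Cm + 3)
  obtain ⟨t, ht⟩ : ∃ t : ℕ, t = t' () 0 := ⟨_, rfl⟩
  have htX1 : X ≤ t := by rw [ht]; exact (htX () 0).1
  obtain ⟨a, ha, b, hb, hab⟩ := Finset.one_lt_card.mp (hI ())
  obtain ⟨j, i, hj, hi, hji⟩ : ∃ j i : Fin n, j ∈ I () ∧ i ∈ I () ∧ j < i := by
    rcases lt_or_gt_of_ne hab with h | h
    · exact ⟨a, b, ha, hb, h⟩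
    · exact ⟨b, a, hb, ha, h⟩
  have hpi : (C i * t + 1).Prime := by rw [ht]; exact htp () 0 i hi
  have hpj : (C j * t + 1).Prime := by rw [ht]; exact htp () 0 j hj
  have hCi := C2 i
  have hCj := C2 j
  have htle : t ≤ C i * t := Nat.le_mul_of_pos_left t hCi
  have htlej : t ≤ C j * t := Nat.le_mul_of_pos_left t hCj
  refine ⟨C i * t + 1, by omega, hpi, by omega, ?_, ?_⟩
  · rw [Nat.add_sub_cancel]
    exact (CM i).mul_right t
  intro ℓ hℓ hℓd
  rw [Nat.add_sub_cancel] at hℓd ⊢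
  rcases (Nat.Prime.dvd_mul hℓ).mp hℓd with h | h
  · obtain ⟨g, hg, hgk⟩ := C4 i j hji
    obtain ⟨k, hk0, hkg, hkd⟩ := hgk ℓ hℓ h
    have hgC : g ≤ C i := by
      rw [hg]; exact Nat.le_mul_of_pos_left g hCj
    have hkt : k < C j * t + 1 := by
      have := hCle i
      omega
    have hcop : (C j * t + 1).Coprime k := by
      rw [Nat.Prime.coprime_iff_not_dvd hpj]
      intro hd
      have := Nat.le_of_dvd hk0 hd
      omega
    refine ⟨(C j * t + 1) * k, by positivity, ?_, ?_⟩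
    · have h1 : k + 1 ≤ g := hkg
      have h2 : C i * t = C j * t * g := by rw [hg]; ring
      rw [h2]
      have h3 : k ≤ C j * t := by omega
      have h4 : C j * t * (k + 1) ≤ C j * t * g := Nat.mul_le_mul_left _ h1
      nlinarith
    · rw [Nat.totient_mul hcop, Nat.totient_prime hpj, Nat.add_sub_cancel]
      have h2 : C i * t = C j * t * g := by rw [hg]; ring
      rw [h2]
      have h3 : ℓ * (C j * t * k.totient) = C j * t * (ℓ * k.totient) := by ring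
      rw [h3]
      exact Nat.mul_dvd_mul_left _ hkd
  · obtain ⟨P, hP, hPd, hPle, -⟩ := htP () 0 i hi ℓ hℓ (by rw [← ht]; exact h)
    rw [← ht] at hPd hPle
    simp only at hPd hPle
    exact ⟨P, hP.pos, by omega, by rwa [Nat.totient_prime hP]⟩

/-- Beyond any bound there is a prime `p = 1` modulo `M` which is the least `m ≥ 1` with
`n ∣ φ(m)` for `n = p - 1` and for no other `n ≥ 1`. -/
theorem main (M : ℕ) (hM : 1 ≤ M) (N : ℕ) :
    ∃ p : ℕ, N < p ∧ p.Prime ∧ M ∣ p - 1 ∧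
      ∀ n : ℕ, 1 ≤ n → (IsLeast {m : ℕ | 1 ≤ m ∧ n ∣ m.totient} p ↔ n = p - 1) := by
  obtain ⟨p, hpN, hp, hp3, hMp, h⟩ := finM all_SEL all_CHAIN M hM (N + 1)
  refine ⟨p, by omega, hp, hMp, fun n hn => ?_⟩
  rw [← all_CRI p hp hp3 h n]
  constructor
  · intro hl
    exact hl.csInf_eq
  · intro hs
    have hne : {k : ℕ | 0 < k ∧ n ∣ k.totient}.Nonempty := by
      by_contra hc
      rw [Set.not_nonempty_iff_eq_empty] at hc
      rw [hc, Nat.sInf_empty] at hs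
      exact hp.ne_zero hs.symm
    rw [← hs]
    exact ⟨Nat.sInf_mem hne, fun m hm => Nat.sInf_le hm⟩

end SAPM
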